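import Pool.Agent.Helper965.O2.Prep

set_option autoImplicit false

open Filter Topology BoundedContinuousFunction
open scoped BigOperators Matrix

namespace Pool.Agent.Results.MP_e9d43c_an.NoMaximalEmbedding

open Pool.Agent.Helper965.O2

/-- There is a separable C*-algebra `A` such that for **every** nonprincipal ultrafilter `𝒰` on `ℕ`
(selective or not): `A` embeds into the ultrapower `∏_𝒰 𝒪₂`, but no embedding of `A` into
`∏_𝒰 𝒪₂` is `≤`-maximal.

`A` is generated by the unit and three sequences `W₁, W₂, W₃` of partial isometries of `𝒪₂` which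
at index `k` form a quantum expander inside `M_{2k+1} ⊂ 𝒪₂`.  A maximal embedding `φ` would
dominate `s₁ φ s₁* + s₂ ψ s₂*` for every reindexed coordinate homomorphism `ψ = [(· f(n))]`, hence
`u* φ(W_i) u = [(W_i(f(n)))_n]` for suitable contractions `u`.  By the Fejer type approximation of
elements of `𝒪₂` by matrices, a fixed triple of contractions of `𝒪₂` cannot be compressed to
quantum expanders of arbitrarily large dimension up to a fixed error, so a suitable `f` gives a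
contradiction. -/
theorem result :
    ∀ (H : Type) [NormedAddCommGroup H] [InnerProductSpace ℂ H] [CompleteSpace H] [Nontrivial H]
      (s₁ s₂ : H →L[ℂ] H), IsCuntzPair s₁ s₂ →
      ∃ (A : Type) (_ : CStarAlgebra A), TopologicalSpace.SeparableSpace A ∧
        ∀ 𝒰 : Ultrafilter ℕ, (𝒰 : Filter ℕ) ≤ Filter.cofinite →
          (∃ φ : Hom A (O2 s₁ s₂) 𝒰, IsEmbedding φ) ∧
          ¬ ∃ φ : Hom A (O2 s₁ s₂) 𝒰, IsMaximalEmbedding φ := by
  intro H _ _ _ _ s₁ s₂ hs
  obtain ⟨h1, h2, h3⟩ := hs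
  have hC := isCuntz_fam h1 h2 h3
  have k11 : star (g₁ s₁ s₂) * g₁ s₁ s₂ = 1 := by
    apply inc_inj
    rw [map_mul, map_star, map_one]; exact h1
  have k22 : star (g₂ s₁ s₂) * g₂ s₁ s₂ = 1 := by
    apply inc_inj
    rw [map_mul, map_star, map_one]; exact h2
  have k12 : star (g₁ s₁ s₂) * g₂ s₁ s₂ = 0 := by
    apply inc_inj
    rw [map_mul, map_star, map_zero]
    have h : star s₁ * s₂ = 0 := by
      have := hC.orth (i := true) (j := false) (by simp)
      simpa [fam] using this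
    exact h
  have horth := pow_orth k11 k22 k12
  have horthZ : ∀ (k : ℕ) (p q : ZMod (2 * k + 1)),
      star (g₂ s₁ s₂ ^ p.val * g₁ s₁ s₂) * (g₂ s₁ s₂ ^ q.val * g₁ s₁ s₂) =
        if p = q then 1 else 0 := by
    intro k p q
    rw [horth]
    by_cases h : p = q
    · simp [h]
    · rw [if_neg h, if_neg (fun h' => h (ZMod.val_injective _ h'))]
  have hWp : ∀ i k, Wseq s₁ s₂ i k * star (Wseq s₁ s₂ i k) * Wseq s₁ s₂ i k = Wseq s₁ s₂ i k := by
    intro i k
    unfold Wseq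
    rw [star_embD, embD_mul (horthZ k), embD_mul (horthZ k)]
    have hw := Matrix.mem_unitaryGroup_iff.1 (w_mem (2 * k + 1) i)
    rw [Matrix.star_eq_conjTranspose] at hw
    rw [hw, one_mul]
  have hW : ∀ i k, ‖Wseq s₁ s₂ i k‖ ≤ 1 := fun i k => norm_le_one_of_pi (hWp i k)
  refine ⟨algA (Wseq s₁ s₂) hW, inferInstance, sepA _ _, fun 𝒰 h𝒰 =>
    ⟨⟨embU 𝒰 (fun j => g₂ s₁ s₂ ^ j * g₁ s₁ s₂) horth _, embU_injective 𝒰 h𝒰 _ _ _⟩, ?_⟩⟩
  rintro ⟨φ, hφ⟩
  refine no_max (g₁ s₁ s₂) (g₂ s₁ s₂) k11 k22 k12 (Wseq s₁ s₂) hW hWp ?_ φ hφ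
  intro V hV
  obtain ⟨k, hk⟩ := key hC (fun i => inc s₁ s₂ (V i)) (fun i => by
    rw [range_fam]; exact inc_mem (V i)) hV
  refine ⟨k, fun c hc hcon => ?_⟩
  refine hk (inc s₁ s₂ c) hc
    (fun p => inc s₁ s₂ (g₂ s₁ s₂ ^ p.val * g₁ s₁ s₂)) ?_ ?_
  · intro p q
    rw [← map_star, ← map_mul, horthZ k p q]
    split_ifs
    · exact map_one _
    · exact map_zero _
  · intro i
    rw [← inc_embD, ← map_star, ← map_mul, ← map_mul, ← map_sub, norm_inc]
    exact hcon i

end Pool.Agent.Results.MP_e9d43c_an.NoMaximalEmbedding
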